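import Pool.Agent.Helper20.QP.St2

/-!
# Project QD (MP_d112a4_gt), PART P, module LSD: local stability, uniform
-/

set_option autoImplicit false

open Filter Topology Matrix Set Metric
open scoped ComplexConjugate

namespace Pool.Agent.Helper32.QP

open Pool.Agent.Helper35.PM Pool.Agent.Helper20.QD Pool.Agent.Helper20.QP

namespace LSD

/-! ### Frobenius norm -/

theorem cs2 (a b c d : ℂ) : ‖a * b + c * d‖ ^ 2 ≤ (‖a‖ ^ 2 + ‖c‖ ^ 2) * (‖b‖ ^ 2 + ‖d‖ ^ 2) := by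
  have h1 : ‖a * b + c * d‖ ≤ ‖a‖ * ‖b‖ + ‖c‖ * ‖d‖ := by
    refine (norm_add_le _ _).trans ?_
    rw [norm_mul, norm_mul]
  have h2 : ‖a * b + c * d‖ ^ 2 ≤ (‖a‖ * ‖b‖ + ‖c‖ * ‖d‖) ^ 2 :=
    pow_le_pow_left₀ (norm_nonneg _) h1 2
  refine h2.trans ?_
  nlinarith [sq_nonneg (‖a‖ * ‖d‖ - ‖c‖ * ‖b‖)]

theorem hs_mul (M N : Mat) : hs (M * N) ≤ hs M * hs N := by
  unfold hs
  simp only [Fin.sum_univ_two, Matrix.mul_apply]
  have h1 := cs2 (M 0 0) (N 0 0) (M 0 1) (N 1 0)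
  have h2 := cs2 (M 0 0) (N 0 1) (M 0 1) (N 1 1)
  have h3 := cs2 (M 1 0) (N 0 0) (M 1 1) (N 1 0)
  have h4 := cs2 (M 1 0) (N 0 1) (M 1 1) (N 1 1)
  nlinarith [h1, h2, h3, h4]

theorem hs_nonneg (M : Mat) : 0 ≤ hs M := by
  unfold hs
  positivity

theorem hs_inv (A : SL) : hs ((A⁻¹ : SL) : Mat) = hs (A : Mat) := by
  have e := Matrix.SpecialLinearGroup.SL2_inv_expl A
  rw [e]
  unfold hs
  simp only [Fin.sum_univ_two]
  change ‖(A : Mat) 1 1‖ ^ 2 + ‖-(A : Mat) 0 1‖ ^ 2 + (‖-(A : Mat) 1 0‖ ^ 2 + ‖(A : Mat) 0 0‖ ^ 2) = _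
  rw [norm_neg, norm_neg]
  ring

theorem hs_quot (A C : SL) (X η : ℝ) (hA : hs (A : Mat) ≤ X) (hC : hs ((A : Mat) - (C : Mat)) ≤ η) :
    hs (((C * A⁻¹ : SL) : Mat) - 1) ≤ η * X := by
  have h1 : ((C * A⁻¹ : SL) : Mat) - 1 = ((C : Mat) - (A : Mat)) * ((A⁻¹ : SL) : Mat) := by
    rw [Matrix.SpecialLinearGroup.coe_mul, sub_mul, ← Matrix.SpecialLinearGroup.coe_mul A A⁻¹, mul_inv_cancel,
      Matrix.SpecialLinearGroup.coe_one]
  have h2 : hs ((C : Mat) - (A : Mat)) = hs ((A : Mat) - (C : Mat)) := by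
    unfold hs
    refine Finset.sum_congr rfl fun i _ => Finset.sum_congr rfl fun j _ => ?_
    rw [Matrix.sub_apply, Matrix.sub_apply, norm_sub_rev]
  rw [h1]
  refine (hs_mul _ _).trans ?_
  rw [h2, hs_inv]
  have h3 := hs_nonneg (A : Mat)
  have h4 := hs_nonneg ((A : Mat) - (C : Mat))
  exact mul_le_mul hC hA h3 (h4.trans hC)

/-! ### sums in the cone -/

theorem sum_cone {ι : Type*} (V : Set (ℝ × ℂ)) (hV : ∀ v ∈ V, ∀ w ∈ V, v + w ∈ V) (f : ι → ℝ × ℂ)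
    (s : Finset ι) (hf : ∀ i ∈ s, f i = 0 ∨ f i ∈ V) :
    (∀ i ∈ s, f i = 0) ∨ ∑ i ∈ s, f i ∈ V := by
  classical
  induction s using Finset.induction_on with
  | empty => left; simp
  | insert a s ha ih =>
    rw [Finset.sum_insert ha]
    have h1 := ih fun i hi => hf i (Finset.mem_insert_of_mem hi)
    rcases hf a (Finset.mem_insert_self a s) with h2 | h2
    · rcases h1 with h1 | h1
      · left
        intro i hi
        rcases Finset.mem_insert.1 hi with hi | hi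
        · rw [hi, h2]
        · exact h1 i hi
      · right
        rw [h2, zero_add]
        exact h1
    · right
      rcases h1 with h1 | h1
      · rw [Finset.sum_eq_zero h1, add_zero]
        exact h2
      · exact hV _ h2 _ h1

/-! ### compact sets in the disc -/

theorem cpt_disc (T : Set ℂ) (hT : IsCompact T) (hD : T ⊆ D) : ∃ r : ℝ, 0 ≤ r ∧ r < 1 ∧ ∀ z ∈ T, ‖z‖ ≤ r := by
  rcases T.eq_empty_or_nonempty with h | h
  · exact ⟨0, le_refl 0, zero_lt_one, fun z hz => by rw [h] at hz; exact absurd hz (Set.notMem_empty z)⟩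
  · obtain ⟨w, hw, hm⟩ := hT.exists_isMaxOn h continuous_norm.continuousOn
    exact ⟨‖w‖, norm_nonneg w, mem_ball_zero_iff.1 (hD hw), fun z hz => hm hz⟩

/-! ### `SU(1,1)` -/

section su

variable (hSUB : StSUB)
include hSUB

theorem su_D {A : SL} (hA : IsSU A) {z : ℂ} (hz : z ∈ D) : mob A z ∈ D := (hSUB.1 A hA).2.2.1.mapsTo hz

theorem su_den {A : SL} (hA : IsSU A) {z : ℂ} (hz : z ∈ D) : den A z ≠ 0 :=
  (hSUB.1 A hA).2.1 z (ball_subset_closedBall hz)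

theorem su_inv {A : SL} (hA : IsSU A) : IsSU A⁻¹ := (hSUB.1 A hA).1

theorem su_mob {A B : SL} (hB : IsSU B) {z : ℂ} (hz : z ∈ D) : mob (A * B) z = mob A (mob B z) :=
  (hSUB.2.2.2.1 A B z (su_den hSUB hB hz)).1

theorem su_inv_mob {A : SL} (hA : IsSU A) {z : ℂ} (hz : z ∈ D) : mob A⁻¹ (mob A z) = z :=
  (hSUB.1 A hA).2.2.2.2 z (ball_subset_closedBall hz)

theorem su_mob_inv {A : SL} (hA : IsSU A) {z : ℂ} (hz : z ∈ D) : mob A (mob A⁻¹ z) = z := by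
  have h := su_inv_mob hSUB (su_inv hSUB hA) hz
  rwa [inv_inv] at h

theorem su_cd {A : SL} (hA : IsSU A) {z : ℂ} (hz : z ∈ D) : ContDiffAt ℝ 1 (mob A) z := by
  have h := su_den hSUB hA hz
  unfold den at h
  have h1 : ContDiffAt ℂ 1 (mob A) z := by
    unfold mob
    refine ContDiffAt.div ?_ ?_ h
    · fun_prop
    · fun_prop
  exact h1.restrict_scalars ℝ

end su

/-! ### Wirtinger derivatives -/

theorem fd_form (G : ℂ → ℂ) (z h : ℂ) : fderiv ℝ G z h = dz G z * h + dzb G z * conj h := by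
  have h1 : fderiv ℝ G z h = (h.re : ℂ) * fderiv ℝ G z 1 + (h.im : ℂ) * fderiv ℝ G z Complex.I := by
    have h2 : h = h.re • (1 : ℂ) + h.im • Complex.I := by
      apply Complex.ext <;> simp
    conv_lhs => rw [h2]
    rw [map_add, map_smul, map_smul, Complex.real_smul, Complex.real_smul]
  rw [h1]
  unfold dz dzb
  have h3 : conj h = (h.re : ℂ) - (h.im : ℂ) * Complex.I := by
    apply Complex.ext <;> simp
  have h4 : h = (h.re : ℂ) + (h.im : ℂ) * Complex.I := (Complex.re_add_im h).symm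
  rw [h3]
  have h5 : (fderiv ℝ G z 1 - Complex.I * fderiv ℝ G z Complex.I) / 2 * h =
      (fderiv ℝ G z 1 - Complex.I * fderiv ℝ G z Complex.I) / 2 * ((h.re : ℂ) + (h.im : ℂ) * Complex.I) := by
    rw [← h4]
  rw [h5]
  linear_combination ((h.im : ℂ) * fderiv ℝ G z Complex.I) * Complex.I_mul_I

theorem chain (G G' f g : ℂ → ℂ) (z u c c' : ℂ) (hG : DifferentiableAt ℝ G u) (hf : HasDerivAt f c z)
    (hu : f z = u) (hg : HasDerivAt g c' (G u)) (hE : G' =ᶠ[𝓝 z] fun x => g (G (f x))) :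
    dz G' z = c' * dz G u * c ∧ dzb G' z = c' * dzb G u * conj c := by
  subst hu
  have h1 : HasFDerivAt (𝕜 := ℝ) f ((ContinuousLinearMap.toSpanSingleton ℂ c).restrictScalars ℝ) z :=
    hf.hasFDerivAt.restrictScalars ℝ
  have h2 : HasFDerivAt (𝕜 := ℝ) g ((ContinuousLinearMap.toSpanSingleton ℂ c').restrictScalars ℝ) (G (f z)) :=
    hg.hasFDerivAt.restrictScalars ℝ
  have h3 := h2.comp z (hG.hasFDerivAt.comp z h1)
  have h4 : fderiv ℝ G' z = _ := hE.fderiv_eq.trans h3.fderiv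
  have h5 : ∀ h : ℂ, fderiv ℝ G' z h = c' * (dz G (f z) * (c * h) + dzb G (f z) * conj (c * h)) := by
    intro h
    rw [h4]
    change (fderiv ℝ G (f z) (h • c)) • c' = _
    rw [fd_form, smul_eq_mul, smul_eq_mul, mul_comm h c]
    ring
  constructor
  · rw [dz, h5, h5, map_mul, map_mul, Complex.conj_I, map_one]
    linear_combination (-(c' * dz G (f z) * c) / 2 + c' * dzb G (f z) * conj c / 2) * Complex.I_mul_I
  · rw [dzb, h5, h5, map_mul, map_mul, Complex.conj_I, map_one]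
    linear_combination ((c' * dz G (f z) * c) / 2 - c' * dzb G (f z) * conj c / 2) * Complex.I_mul_I

theorem near (G : ℂ → ℂ) (z : ℂ) (κ : ℝ) (h : ‖fderiv ℝ G z - ContinuousLinearMap.id ℝ ℂ‖ ≤ κ) :
    1 - κ ≤ ‖dz G z‖ ∧ ‖dzb G z‖ ≤ κ := by
  set L := fderiv ℝ G z - ContinuousLinearMap.id ℝ ℂ with hL
  have e1 : fderiv ℝ G z 1 = 1 + L 1 := by
    rw [hL]
    simp
  have eI : fderiv ℝ G z Complex.I = Complex.I + L Complex.I := by
    rw [hL]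
    simp
  have n1 : ‖L 1‖ ≤ κ := by
    have := L.le_opNorm 1
    rw [norm_one, mul_one] at this
    exact this.trans h
  have nI : ‖L Complex.I‖ ≤ κ := by
    have := L.le_opNorm Complex.I
    rw [Complex.norm_I, mul_one] at this
    exact this.trans h
  have nI' : ‖Complex.I * L Complex.I‖ ≤ κ := by
    rw [norm_mul, Complex.norm_I, one_mul]
    exact nI
  constructor
  · have h2 : dz G z = 1 + (L 1 - Complex.I * L Complex.I) / 2 := by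
      rw [dz, e1, eI]
      linear_combination (-1 / 2 : ℂ) * Complex.I_mul_I
    have h3 : ‖(L 1 - Complex.I * L Complex.I) / 2‖ ≤ κ := by
      rw [norm_div, Complex.norm_ofNat]
      have := norm_sub_le (L 1) (Complex.I * L Complex.I)
      linarith
    have h4 : (1 : ℂ) = dz G z - (L 1 - Complex.I * L Complex.I) / 2 := by
      rw [h2]
      ring
    have h5 := norm_sub_le (dz G z) ((L 1 - Complex.I * L Complex.I) / 2)
    rw [← h4, norm_one] at h5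
    linarith
  · have h2 : dzb G z = (L 1 + Complex.I * L Complex.I) / 2 := by
      rw [dzb, e1, eI]
      linear_combination (1 / 2 : ℂ) * Complex.I_mul_I
    rw [h2, norm_div, Complex.norm_ofNat]
    have := norm_add_le (L 1) (Complex.I * L Complex.I)
    linarith

/-! ### cut off and bounds -/

theorem cut_nonneg (b x : ℝ) : 0 ≤ cut b x := by
  unfold cut
  positivity

theorem cut_zero (b x : ℝ) (h : b + 1 ≤ x) : cut b x = 0 := by
  unfold cut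
  rw [max_eq_left (by linarith)]
  ring

theorem cut_one (b x : ℝ) (h : x ≤ b) : 1 ≤ cut b x := by
  unfold cut
  have h1 : 1 ≤ max 0 (b + 1 - x) := le_max_of_le_right (by linarith)
  nlinarith

theorem bnd (hSUB : StSUB) (hMET : StMET) (B : ℝ) (hB : 0 ≤ B) : ∃ X : ℝ, 0 < X ∧
    ∀ (A : SL) (z : ℂ), IsSU A → z ∈ D → dl 0 z ≤ B → dl 0 (mob A⁻¹ z) ≤ B → hs (A : Mat) ≤ X := by
  have h6 := hMET.2.2.2.2.2.1
  have hlt : B / (1 + B) < 1 := by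
    rw [div_lt_one (by linarith)]
    linarith
  have h0 : 0 ≤ B / (1 + B) := by positivity
  have hr : Real.sqrt (B / (1 + B)) < 1 := by
    rw [Real.sqrt_lt' one_pos, one_pow]
    exact hlt
  have hr' : 0 < 1 - Real.sqrt (B / (1 + B)) := by linarith
  refine ⟨8 / (1 - Real.sqrt (B / (1 + B))) ^ 3, by positivity, ?_⟩
  intro A z hA hz h1 h2
  have hw : mob A⁻¹ z ∈ D := su_D hSUB (su_inv hSUB hA) hz
  have h3 : ‖z‖ ≤ Real.sqrt (B / (1 + B)) := by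
    rw [Real.le_sqrt (norm_nonneg _) h0]
    exact (h6 z B hz hB).1 h1
  have h4 : ‖mob A⁻¹ z‖ ≤ Real.sqrt (B / (1 + B)) := by
    rw [Real.le_sqrt (norm_nonneg _) h0]
    exact (h6 _ B hw hB).1 h2
  refine hSUB.2.2.2.2.2 A (mob A⁻¹ z) _ hA hr h4 ?_
  rw [su_mob_inv hSUB hA hz]
  exact h3

/-! ### the averaged map -/

section main

variable {Γ : Type} [Group Γ]

/-- the term of the sum -/
noncomputable def tm (σ τ : Γ →* SL) (b : ℝ) (z : ℂ) (γ : Γ) : ℝ × ℂ :=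
  cut b (dl 0 (mob (σ γ)⁻¹ z)) • Pz (mob (τ γ * (σ γ)⁻¹) z)

/-- the sum -/
noncomputable def W (σ τ : Γ →* SL) (b : ℝ) (z : ℂ) : ℝ × ℂ := ∑ᶠ γ : Γ, tm σ τ b z γ

theorem tm_supp (σ τ : Γ →* SL) (b : ℝ) (z : ℂ) (γ : Γ) (h : tm σ τ b z γ ≠ 0) :
    dl 0 (mob (σ γ)⁻¹ z) < b + 1 := by
  by_contra hc
  push Not at hc
  exact h (by unfold tm; rw [cut_zero b _ hc, zero_smul])

theorem tm_fin (hSUB : StSUB) (hMET : StMET) (σ τ : Γ →* SL) (hσ : Fuch σ) (b : ℝ) (z : ℂ) (hz : z ∈ D)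
    (hb : 0 ≤ b) : (Function.support (tm σ τ b z)).Finite := by
  obtain ⟨X, hX, h⟩ := bnd hSUB hMET (max (b + 1) (dl 0 z)) (le_max_of_le_left (by linarith))
  refine (hσ.discrete X).subset ?_
  intro γ hγ
  exact h (σ γ) z (hσ.su γ) hz (le_max_right _ _) ((tm_supp σ τ b z γ hγ).le.trans (le_max_left _ _))

theorem W_mem (hSUB : StSUB) (hMET : StMET) (hLSA : StLSA) (σ τ : Γ →* SL) (hσ : Fuch σ) (hτ : Fuch τ) (b : ℝ)
    (hb : 0 ≤ b) (hc : Coc σ b) (z : ℂ) (hz : z ∈ D) : ‖(W σ τ b z).2‖ < (W σ τ b z).1 := by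
  have hf := tm_fin hSUB hMET σ τ hσ b z hz hb
  have hD : ∀ γ : Γ, mob (τ γ * (σ γ)⁻¹) z ∈ D := fun γ =>
    su_D hSUB (hSUB.2.1 _ _ (hτ.su γ) (su_inv hSUB (hσ.su γ))) hz
  have h1 : W σ τ b z = ∑ γ ∈ hf.toFinset, tm σ τ b z γ := finsum_eq_sum _ hf
  have h2 := sum_cone {v : ℝ × ℂ | ‖v.2‖ < v.1} (fun v hv w hw => hLSA.2.1 v w hv hw) (tm σ τ b z) hf.toFinset
    (fun γ _ => by
      rcases (cut_nonneg b (dl 0 (mob (σ γ)⁻¹ z))).eq_or_lt with h | h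
      · left
        unfold tm
        rw [← h, zero_smul]
      · right
        exact (hLSA.1 _ (hD γ) _ h).1)
  rcases h2 with h2 | h2
  · exfalso
    obtain ⟨γ, hγ⟩ := hc z hz
    have h3 : tm σ τ b z γ⁻¹ = 0 := by
      by_contra h4
      exact h4 (h2 _ (hf.mem_toFinset.2 h4))
    have h5 : 1 ≤ cut b (dl 0 (mob (σ γ⁻¹)⁻¹ z)) := by
      rw [map_inv, inv_inv]
      exact cut_one b _ hγ
    have h6 := (hLSA.1 _ (hD γ⁻¹) _ (lt_of_lt_of_le one_pos h5)).1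
    change ‖(tm σ τ b z γ⁻¹).2‖ < (tm σ τ b z γ⁻¹).1 at h6
    rw [h3] at h6
    simp at h6
  · rw [h1]
    exact h2

theorem W_eqv (hSUB : StSUB) (hMET : StMET) (hLSA : StLSA) (σ τ : Γ →* SL) (hσ : Fuch σ) (hτ : Fuch τ) (b : ℝ)
    (hb : 0 ≤ b) (hc : Coc σ b) (δ : Γ) (z : ℂ) (hz : z ∈ D) :
    cm (W σ τ b (mob (σ δ) z)) = mob (τ δ) (cm (W σ τ b z)) := by
  obtain ⟨Λ, hΛ1, hΛ2⟩ := hLSA.2.2.2.1 (τ δ) (hτ.su δ)
  rw [← (hΛ2 _ (W_mem hSUB hMET hLSA σ τ hσ hτ b hb hc z hz)).2]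
  congr 1
  have h1 : W σ τ b (mob (σ δ) z) = ∑ᶠ γ : Γ, tm σ τ b (mob (σ δ) z) (δ * γ) :=
    (finsum_comp_equiv (Equiv.mulLeft δ)).symm
  have h2 : Λ (W σ τ b z) = ∑ᶠ γ : Γ, Λ (tm σ τ b z γ) :=
    AddMonoidHom.map_finsum (Λ : (ℝ × ℂ) →+ (ℝ × ℂ)) (tm_fin hSUB hMET σ τ hσ b z hz hb)
  rw [h1, h2]
  refine finsum_congr fun γ => ?_
  unfold tm
  have hD : mob (τ γ * (σ γ)⁻¹) z ∈ D :=
    su_D hSUB (hSUB.2.1 _ _ (hτ.su γ) (su_inv hSUB (hσ.su γ))) hz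
  rw [map_smul, hΛ1 _ hD]
  have h3 : mob (σ (δ * γ))⁻¹ (mob (σ δ) z) = mob (σ γ)⁻¹ z := by
    rw [← su_mob hSUB (hσ.su δ) hz]
    congr 1
    rw [map_mul, _root_.mul_inv_rev, inv_mul_cancel_right]
  have h4 : mob (τ (δ * γ) * (σ (δ * γ))⁻¹) (mob (σ δ) z) = mob (τ δ) (mob (τ γ * (σ γ)⁻¹) z) := by
    rw [← su_mob hSUB (hσ.su δ) hz,
      ← su_mob hSUB (hSUB.2.1 _ _ (hτ.su γ) (su_inv hSUB (hσ.su γ))) hz]
    congr 1
    rw [map_mul, map_mul, _root_.mul_inv_rev, mul_assoc, mul_assoc, mul_assoc, inv_mul_cancel, mul_one]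
  rw [h3, h4]

theorem W_loc (σ τ : Γ →* SL) (hσ : Fuch σ) (b X : ℝ)
    (hX : ∀ (A : SL) (z : ℂ), IsSU A → z ∈ D → dl 0 z ≤ b + 1 → dl 0 (mob A⁻¹ z) ≤ b + 1 → hs (A : Mat) ≤ X)
    (hS : {γ : Γ | hs (σ γ : Mat) ≤ X}.Finite) (z : ℂ) (hz : z ∈ D) (hd : dl 0 z ≤ b + 1) :
    W σ τ b z = ∑ i : Fin hS.toFinset.card, tm σ τ b z ((hS.toFinset.equivFin).symm i : Γ) := by
  have h1 : W σ τ b z = ∑ γ ∈ hS.toFinset, tm σ τ b z γ := by
    refine finsum_eq_sum_of_support_subset _ ?_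
    intro γ hγ
    rw [Finset.mem_coe, hS.mem_toFinset]
    exact hX (σ γ) z (hσ.su γ) hz hd (tm_supp σ τ b z γ hγ).le
  rw [h1, ← Finset.sum_coe_sort]
  exact ((hS.toFinset.equivFin).symm.sum_comp (fun γ : hS.toFinset => tm σ τ b z (γ : Γ))).symm

theorem dl_cont (hMET : StMET) (z : ℂ) (hz : z ∈ D) : ContinuousAt (fun w => dl 0 w) z := by
  have h7 := hMET.2.2.2.2.2.2
  have h0 : (0 : ℂ) ∈ D := mem_ball_self one_pos
  have h1 : ContinuousAt (fun p : ℂ × ℂ => dl p.1 p.2) (0, z) :=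
    h7.continuousAt ((isOpen_ball.prod isOpen_ball).mem_nhds ⟨h0, hz⟩)
  exact ContinuousAt.comp (f := fun w : ℂ => ((0 : ℂ), w)) (g := fun p : ℂ × ℂ => dl p.1 p.2) h1
    (by fun_prop)

end main

/-- the facts near the centre give everything -/
theorem fin (hSUB : StSUB) (hMET : StMET) (hGBJ : StGBJ) (b κ : ℝ) (hb : 0 ≤ b) {Γ : Type} [Group Γ]
    (σ τ : Γ →* SL) (hσ : Fuch σ) (hτ : Fuch τ) (hc : Coc σ b) (G : ℂ → ℂ) (hGD : ∀ z ∈ D, G z ∈ D)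
    (hE : ∀ δ : Γ, ∀ z ∈ D, G (mob (σ δ) z) = mob (τ δ) (G z))
    (hL : ∀ z ∈ D, dl 0 z ≤ b → ContDiffAt ℝ 1 G z ∧ ‖dzb G z‖ < ‖dz G z‖ ∧ ‖dzb G z‖ ≤ κ * ‖dz G z‖) :
    BijOn G D D ∧ ContDiffOn ℝ 1 G D ∧ (∀ z ∈ D, dz G z ≠ 0 ∧ ‖dzb G z‖ ≤ κ * ‖dz G z‖) ∧
      ∀ γ, ∀ z ∈ D, G (mob (σ γ) z) = mob (τ γ) (G z) := by
  have key : ∀ z ∈ D, ContDiffAt ℝ 1 G z ∧ ‖dzb G z‖ < ‖dz G z‖ ∧ ‖dzb G z‖ ≤ κ * ‖dz G z‖ := by
    intro z hz
    obtain ⟨δ, hδ⟩ := hc z hz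
    have hu : mob (σ δ) z ∈ D := su_D hSUB (hσ.su δ) hz
    obtain ⟨hL1, hL2, hL3⟩ := hL _ hu hδ
    have hev : G =ᶠ[𝓝 z] fun x => mob (τ δ)⁻¹ (G (mob (σ δ) x)) := by
      filter_upwards [isOpen_ball.mem_nhds hz] with x hx
      rw [hE δ x hx, su_inv_mob hSUB (hτ.su δ) (hGD x hx)]
    have hGu : G (mob (σ δ) z) ∈ D := hGD _ hu
    have hτi : IsSU (τ δ)⁻¹ := su_inv hSUB (hτ.su δ)
    have hf := hSUB.2.2.2.2.1 (σ δ) z (su_den hSUB (hσ.su δ) hz)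
    have hg := hSUB.2.2.2.2.1 (τ δ)⁻¹ (G (mob (σ δ) z)) (su_den hSUB hτi hGu)
    have hch := chain G G (mob (σ δ)) (mob (τ δ)⁻¹) z (mob (σ δ) z) _ _ (hL1.differentiableAt one_ne_zero) hf rfl hg hev
    have n1 := inv_ne_zero (pow_ne_zero 2 (su_den hSUB (hσ.su δ) hz))
    have n2 := inv_ne_zero (pow_ne_zero 2 (su_den hSUB hτi hGu))
    have p1 := norm_pos_iff.2 n1
    have p2 := norm_pos_iff.2 n2
    refine ⟨?_, ?_, ?_⟩
    · refine ContDiffAt.congr_of_eventuallyEq ?_ hev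
      exact (su_cd hSUB hτi hGu).comp z (hL1.comp z (su_cd hSUB (hσ.su δ) hz))
    · rw [hch.1, hch.2, norm_mul, norm_mul, norm_mul, norm_mul, RCLike.norm_conj]
      exact mul_lt_mul_of_pos_right (mul_lt_mul_of_pos_left hL2 p2) p1
    · rw [hch.1, hch.2, norm_mul, norm_mul, norm_mul, norm_mul, RCLike.norm_conj]
      have := mul_le_mul_of_nonneg_right (mul_le_mul_of_nonneg_left hL3 p2.le) p1.le
      linarith
  have hCD : ContDiffOn ℝ 1 G D := fun z hz => (key z hz).1.contDiffWithinAt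
  refine ⟨?_, hCD, ?_, hE⟩
  · refine hGBJ G hGD hCD (fun z hz => (key z hz).2.1) ?_
    intro r hr
    have h6 := hMET.2.2.2.2.2.1
    have hlt : b / (1 + b) < 1 := by
      rw [div_lt_one (by linarith)]
      linarith
    have h0 : 0 ≤ b / (1 + b) := by positivity
    have hρ : Real.sqrt (b / (1 + b)) < 1 := by
      rw [Real.sqrt_lt' one_pos, one_pow]
      exact hlt
    have hK : closedBall (0 : ℂ) (Real.sqrt (b / (1 + b))) ⊆ D := closedBall_subset_ball hρ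
    obtain ⟨r1, hr1, hr1', hr1K⟩ := cpt_disc (G '' closedBall (0 : ℂ) (Real.sqrt (b / (1 + b))))
      ((isCompact_closedBall _ _).image_of_continuousOn (hCD.continuousOn.mono hK))
      (by rintro _ ⟨w, hw, rfl⟩; exact hGD w (hK hw))
    have hr2 : max r r1 < 1 := max_lt hr hr1'
    have hF := hτ.discrete (8 / (1 - max r r1) ^ 3)
    obtain ⟨r', hr', hr'1, hr'K⟩ := cpt_disc
      (⋃ δ ∈ {γ : Γ | hs (τ γ : Mat) ≤ 8 / (1 - max r r1) ^ 3},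
        mob (σ δ)⁻¹ '' closedBall (0 : ℂ) (Real.sqrt (b / (1 + b))))
      (hF.isCompact_biUnion fun δ _ => (isCompact_closedBall _ _).image_of_continuousOn
        fun w hw => (su_cd hSUB (su_inv hSUB (hσ.su δ)) (hK hw)).continuousAt.continuousWithinAt)
      (by
        refine Set.iUnion₂_subset fun δ _ => ?_
        rintro _ ⟨w, hw, rfl⟩
        exact su_D hSUB (su_inv hSUB (hσ.su δ)) (hK hw))
    refine ⟨r', hr'1, ?_⟩
    intro z hz hGz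
    obtain ⟨δ, hδ⟩ := hc z hz
    have hu : mob (σ δ) z ∈ D := su_D hSUB (hσ.su δ) hz
    have huK : mob (σ δ) z ∈ closedBall (0 : ℂ) (Real.sqrt (b / (1 + b))) := by
      rw [mem_closedBall_zero_iff, Real.le_sqrt (norm_nonneg _) h0]
      exact (h6 _ b hu hb).1 hδ
    refine hr'K z (Set.mem_iUnion₂.2 ⟨δ, ?_, ⟨mob (σ δ) z, huK, su_inv_mob hSUB (hσ.su δ) hz⟩⟩)
    refine hSUB.2.2.2.2.2 (τ δ) (G z) _ (hτ.su δ) hr2 (hGz.trans (le_max_left _ _)) ?_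
    rw [← hE δ z hz]
    exact (hr1K _ ⟨_, huK, rfl⟩).trans (le_max_right _ _)
  · intro z hz
    obtain ⟨_, h2, h3⟩ := key z hz
    refine ⟨?_, h3⟩
    rw [← norm_pos_iff]
    exact (norm_nonneg _).trans_lt h2

end LSD

open LSD in
theorem hLSD (hSUB : StSUB) (hMET : StMET) (hSEP : StSEP) (hLSA : StLSA) (hLSC : StLSC) (hGBJ : StGBJ) :
    StLSD := by
  intro b ε κ hb hε hκ
  obtain ⟨X, hXp, hX⟩ := bnd hSUB hMET (b + 1) (by linarith)
  obtain ⟨N0, hN0⟩ := (hSEP X ε hε).2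
  have hκ' : 0 < min (κ / 2) (1 / 4) := lt_min (by linarith) (by norm_num)
  have hη2 : ∃ η2 : ℝ, 0 < η2 ∧ ∀ N ≤ N0, ∀ (A C : Fin N → SL) (z : ℂ),
      (∀ i, IsSU (A i) ∧ IsSU (C i) ∧ hs (A i : Mat) ≤ X ∧ hs ((C i : Mat) - 1) ≤ η2) → z ∈ D → dl 0 z ≤ b →
      1 ≤ ∑ i, cut b (dl 0 (mob (A i)⁻¹ z)) →
      ContDiffAt ℝ 1 (GA b A C) z ∧ GA b A C z ∈ D ∧
        ‖fderiv ℝ (GA b A C) z - ContinuousLinearMap.id ℝ ℂ‖ ≤ min (κ / 2) (1 / 4) := by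
    choose f hf1 hf2 using fun N : ℕ => hLSC N b X (min (κ / 2) (1 / 4)) hb hκ'
    obtain ⟨e, he, he'⟩ : ∃ e : ℝ, 0 < e ∧ ∀ N ≤ N0, e ≤ f N := by
      obtain ⟨m, _, hm⟩ := Finset.exists_min_image (Finset.range (N0 + 1)) f ⟨0, by simp⟩
      exact ⟨f m, hf1 m, fun N hN => hm N (Finset.mem_range.2 (by omega))⟩
    refine ⟨e, he, ?_⟩
    intro N hN A C z h1 h2 h3 h4
    exact hf2 N A C z (fun i => ⟨(h1 i).1, (h1 i).2.1, (h1 i).2.2.1, (h1 i).2.2.2.trans (he' N hN)⟩) h2 h3 h4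
  obtain ⟨η2, hη2p, hη2⟩ := hη2
  refine ⟨X, η2 / X, by positivity, ?_⟩
  intro Γ _ σ τ hσ hτ hT hc hcl
  obtain ⟨hS, hcard⟩ := hN0 Γ σ hT
  set N := hS.toFinset.card with hN
  have hNle : N ≤ N0 := by
    rw [← Set.ncard_eq_toFinset_card _ hS] at hN
    rw [hN]
    exact hcard
  set e := (hS.toFinset.equivFin).symm with he
  have heX : ∀ i, hs (σ (e i : Γ) : Mat) ≤ X := fun i => by
    have := (e i).2
    rwa [hS.mem_toFinset] at this
  set A : Fin N → SL := fun i => σ (e i : Γ) with hA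
  set C : Fin N → SL := fun i => τ (e i : Γ) * (σ (e i : Γ))⁻¹ with hC
  refine ⟨fun z => cm (W σ τ b z), fin hSUB hMET hGBJ b κ hb σ τ hσ hτ hc _ ?_ ?_ ?_⟩
  · intro z hz
    exact (hLSA.2.2.1 _ (W_mem hSUB hMET hLSA σ τ hσ hτ b hb hc z hz)).1
  · intro δ z hz
    exact W_eqv hSUB hMET hLSA σ τ hσ hτ b hb hc δ z hz
  · intro z hz hd
    have hev : (fun z => cm (W σ τ b z)) =ᶠ[𝓝 z] GA b A C := by
      have h1 : ∀ᶠ w in 𝓝 z, dl 0 w < b + 1 :=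
        (dl_cont hMET z hz).eventually_lt continuousAt_const (by linarith)
      filter_upwards [isOpen_ball.mem_nhds hz, h1] with w hw hw1
      rw [W_loc σ τ hσ b X hX hS w hw hw1.le]
      rfl
    have hsum : 1 ≤ ∑ i, cut b (dl 0 (mob (A i)⁻¹ z)) := by
      obtain ⟨γ, hγ⟩ := hc z hz
      have hmem : γ⁻¹ ∈ hS.toFinset := by
        rw [hS.mem_toFinset]
        refine hX (σ γ⁻¹) z (hσ.su _) hz (by linarith) ?_
        rw [map_inv, inv_inv]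
        linarith
      have hi : (e (hS.toFinset.equivFin ⟨γ⁻¹, hmem⟩) : Γ) = γ⁻¹ := by
        rw [he, Equiv.symm_apply_apply]
      have h1 : 1 ≤ cut b (dl 0 (mob (A (hS.toFinset.equivFin ⟨γ⁻¹, hmem⟩))⁻¹ z)) := by
        rw [hA]
        change 1 ≤ cut b (dl 0 (mob (σ (e (hS.toFinset.equivFin ⟨γ⁻¹, hmem⟩) : Γ))⁻¹ z))
        rw [hi, map_inv, inv_inv]
        exact cut_one b _ hγ
      exact h1.trans (Finset.single_le_sum (f := fun i => cut b (dl 0 (mob (A i)⁻¹ z)))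
        (fun i _ => cut_nonneg b _) (Finset.mem_univ (hS.toFinset.equivFin ⟨γ⁻¹, hmem⟩)))
    obtain ⟨g1, g2, g3⟩ := hη2 N hNle A C z (fun i => ⟨hσ.su _, hSUB.2.1 _ _ (hτ.su _) (su_inv hSUB (hσ.su _)), heX i, by
      have := hs_quot (σ (e i : Γ)) (τ (e i : Γ)) X (η2 / X) (heX i) (hcl _ (heX i))
      rwa [div_mul_cancel₀ _ hXp.ne'] at this⟩) hz hd hsum
    rw [← hev.fderiv_eq] at g3
    obtain ⟨n1, n2⟩ := near _ z _ g3
    have m1 := min_le_left (κ / 2) (1 / 4 : ℝ)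
    have m2 := min_le_right (κ / 2) (1 / 4 : ℝ)
    refine ⟨g1.congr_of_eventuallyEq hev, by linarith, ?_⟩
    have n3 : 3 / 4 ≤ ‖dz (fun z => cm (W σ τ b z)) z‖ := by linarith
    nlinarith

end Pool.Agent.Helper32.QP
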